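import Pool.Agent.L7h85.SB.Sub
import Pool.Agent.L7h85.PW.Fin
import Pool.Agent.L7h85.PW.Fin3
import Pool.Agent.L7h85.PW.Defs2
import Pool.Agent.L7h85.PW.Jbl
import Pool.Agent.L7h35.PW.Endp
import Pool.Agent.L7h89.PW.Kern
import Pool.Agent.L7h73.PW.Nsu
import Pool.Agent.L7h85.AC.Fin

/-!
# The laws of the poles and of the Tate classes, with the Riemann hypothesis for `X` only
-/

set_option autoImplicit false

open CategoryTheory AlgebraicGeometry Filter Topology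

universe u v

namespace Pool.Agent.L7h85.SB

open Pool.Agent.H914 hiding iter
open Pool.Agent.H914.VarClass Pool.Agent.H914.VarClass.Obj Pool.Agent.H914.WeilCohomology
open Pool.Agent.W534 Pool.Agent.Y163 Pool.Agent.R908
open Pool.Agent.L7h85.GR (Growth)
open Pool.Agent.L7h85.PW (frobRank tateNum bettiSq GrowthLE)
open Pool.Agent.L7h85.AC Pool.Agent.L7h89.SS

variable {k : Type u} [Field k] {𝒱 : VarClass k} {ops : CycleOps 𝒱}
  {W : WeilCohomology.{u, v} ops} {p : ℕ} [hp : Fact p.Prime] [IsAlgClosed W.K]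
  (Φ : FrobSystem W p) (σ : W.K →+* ℂ)

/-- The subclass of the varieties which satisfy the Riemann hypothesis. -/
abbrev subRH : VarClass k :=
  sub (RiemannHyp Φ σ) (fun _ _ h h' => Pool.Agent.L7h94.RH.prod h h')

/-- The restriction of the operations on cycles. -/
abbrev opsRH : CycleOps (subRH Φ σ) := subOps ops

/-- The restriction of the Weil cohomology theory. -/
abbrev WRH : WeilCohomology.{u, v} (opsRH Φ σ) := subW W

/-- The restriction of the system of Frobenius endomorphisms. -/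
abbrev PhiRH : FrobSystem (WRH Φ σ) p := subF Φ

lemma rh_all (Z : (subRH Φ σ).Obj) : RiemannHyp (PhiRH Φ σ) σ Z :=
  (riemannHyp_up Φ σ Z).2 (up_mem Z)

variable {Φ σ}

/-- The variety `X` as a member of the subclass. -/
abbrev objRH {X : 𝒱.Obj} (hX : RiemannHyp Φ σ X) : (subRH Φ σ).Obj := down _ X hX

/-- **The law of the poles.** -/
theorem pole_law_X {X : 𝒱.Obj} (hRH : RiemannHyp Φ σ X) [hX : Nontrivial (W.H X)] :
    ∃ (z r : ℕ → ℕ) (κ : ℝ),
      (∀ n, PoleOrderIs Φ σ (sq X n) ((n + 1) * X.dim) (z n)) ∧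
      (∀ n, r n = numRank ops (sq X n) ((n + 1) * X.dim)) ∧
      (∀ n, 0 < r n ∧ r n ≤ z n) ∧
      0 < κ ∧ Growth z (Module.finrank W.K (W.H X) ^ 2) (frobRank Φ X) κ ∧
      ((∃ N : ℕ, 0 < N ∧ (∀ n, z n ≤ N * r n) ∧
        Growth r (Module.finrank W.K (W.H X) ^ 2) (frobRank Φ X) (κ / N)) ∨
      ∃ C : ℝ, ∀ n : ℕ, (r n : ℝ) ≤ C * ((Module.finrank W.K (W.H X) ^ 2 : ℕ) : ℝ) ^ (n + 1) /
        ((n + 1 : ℕ) : ℝ) ^ (((frobRank Φ X : ℝ) + 1) / 2)) := by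
  have : Nontrivial ((WRH Φ σ).H (objRH hRH)) := hX
  obtain ⟨z, r, κ, h1, h2, h3, h4, h5, h6⟩ := Pool.Agent.L7h85.PW.pole_law (X := objRH hRH)
    hp.out.one_lt inferInstance (PhiRH Φ σ) σ (rh_all Φ σ)
  refine ⟨z, r, κ, fun n => ?_, fun n => ?_, h3, h4, h5, h6⟩
  · have h7 := (poleOrderIs_up Φ σ _ _ _).1 (h1 n)
    rw [sq_up] at h7
    exact h7
  · have h7 := h2 n
    rw [numRank_up, sq_up] at h7
    exact h7

/-- **The law of the Tate classes.** -/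
theorem tate_law_X {X : 𝒱.Obj} (hRH : RiemannHyp Φ σ X) [hX : Nontrivial (W.H X)] :
    ∃ (t z r : ℕ → ℕ) (κ : ℝ),
      (∀ n, t n = tateNum Φ (sq X n) ((n + 1) * X.dim)) ∧
      (∀ n, PoleOrderIs Φ σ (sq X n) ((n + 1) * X.dim) (z n)) ∧
      (∀ n, r n = numRank ops (sq X n) ((n + 1) * X.dim)) ∧
      (∀ n, 0 < r n ∧ r n ≤ t n ∧ t n ≤ z n) ∧
      0 < κ ∧ Growth z (bettiSq W X) (frobRank Φ X) κ ∧
      (Module.End.IsSemisimple (frobAll Φ X) → t = z ∧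
        ((∃ N : ℕ, 0 < N ∧ (∀ n, z n ≤ N * r n) ∧
          Growth r (bettiSq W X) (frobRank Φ X) (κ / N)) ∨
        GrowthLE r (bettiSq W X) (frobRank Φ X + 1))) ∧
      (¬ Module.End.IsSemisimple (frobAll Φ X) →
        (∃ κ' : ℝ, 0 < κ' ∧ Growth t (bettiSq W X) (frobRank Φ X + 1) κ') ∧
        GrowthLE r (bettiSq W X) (frobRank Φ X + 3)) := by
  have : Nontrivial ((WRH Φ σ).H (objRH hRH)) := hX
  obtain ⟨t, z, r, κ, h1, h2, h3, h4, h5, h6, h7, h8⟩ := Pool.Agent.L7h85.PW.tate_law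
    Pool.Agent.L7h35.PW.s_ENDP Pool.Agent.L7h89.PW.s_KERN Pool.Agent.L7h60.PW.s_BLKG
    hp.out.one_lt inferInstance (PhiRH Φ σ) σ (Pool.Agent.L7h73.PW.s_NSU (PhiRH Φ σ) σ)
    (rh_all Φ σ) (objRH hRH)
  refine ⟨t, z, r, κ, fun n => ?_, fun n => ?_, fun n => ?_, h4, h5, h6, fun h => ?_,
    fun h => ?_⟩
  · have h9 : t n = tateNum Φ (up (sq (objRH hRH) n)) ((n + 1) * X.dim) := by
      rw [h1 n]
      have h10 : {c : W.H (up (sq (objRH hRH) n)) |
          IsTate (PhiRH Φ σ) (sq (objRH hRH) n) ((n + 1) * X.dim) c} =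
          {c : W.H (up (sq (objRH hRH) n)) |
            IsTate Φ (up (sq (objRH hRH) n)) ((n + 1) * X.dim) c} :=
        Set.ext fun c => isTate_up Φ (sq (objRH hRH) n) _ c
      exact congrArg (fun S : Set (W.H (up (sq (objRH hRH) n))) =>
        Module.finrank W.K (Submodule.span W.K S)) h10
    rw [sq_up] at h9
    exact h9
  · have h7 := (poleOrderIs_up Φ σ _ _ _).1 (h2 n)
    rw [sq_up] at h7
    exact h7
  · have h7 := h3 n
    rw [numRank_up, sq_up] at h7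
    exact h7
  · refine ⟨(h7 h).1, (h7 h).2.imp_right ?_⟩
    rintro ⟨C, hC⟩
    refine ⟨C, fun n => ?_⟩
    rw [Nat.cast_succ (frobRank Φ X)]
    exact hC n
  · refine ⟨(h8 h).1, ?_⟩
    obtain ⟨C, hC⟩ := (h8 h).2
    refine ⟨C, fun n => ?_⟩
    rw [Nat.cast_add (frobRank Φ X) 3, Nat.cast_ofNat]
    exact hC n

/-- **The formula of Tate up to a polynomial factor in all codimensions.** -/
theorem all_codim_X {X U : 𝒱.Obj} (hRX : RiemannHyp Φ σ X) (hRU : RiemannHyp Φ σ U)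
    (hX : AlgebraicDuality W X)
    {D : X.Cycles} (hD : X.IsCyc 1 D) (hbig : Big ops X D)
    {E : U.Cycles} (hE : U.IsCyc 1 E) (hbigE : Big ops U E) (n c : ℕ)
    (hc : c ≤ ((Y163.sq X n).prod U).dim) :
    TateUpTo Φ σ ((Y163.sq X n).prod U) c
      (totalBetti W U * totalBetti W X ^ (2 * X.dim) * (2 * (n + 2)) ^ (6 * X.dim + 2) *
        (n + 2) ^ (totalBetti W X ^ 2)) := by
  have h0 : ∀ n, (Y163.sq X n).dim = (Y163.sq (objRH hRX) n).dim := by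
    intro n
    have h1 := congrArg (fun Z : 𝒱.Obj => Z.dim) (sq_up (objRH hRX) n)
    exact h1.symm
  obtain ⟨z, r, h1, h2, h3, h4, h5, h6⟩ := all_codim (X := objRH hRX) (U := objRH hRU)
    hp.out.one_lt (PhiRH Φ σ) σ (rh_all Φ σ) (W := WRH Φ σ) hX hD hbig hE hbigE n c (by
      have h2 : ((Y163.sq X n).prod U).dim = (Y163.sq X n).dim + U.dim := rfl
      have h3 : ((Y163.sq (objRH hRX) n).prod (objRH hRU)).dim =
        (Y163.sq (objRH hRX) n).dim + U.dim := rfl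
      rw [h3, ← h0, ← h2]
      exact hc)
  have h7 : up ((Y163.sq (objRH hRX) n).prod (objRH hRU)) = (Y163.sq X n).prod U :=
    congrArg (fun Z : 𝒱.Obj => Z.prod U) (sq_up (objRH hRX) n)
  have h8 := (poleOrderIs_up Φ σ _ _ _).1 h1
  have h9 : Pool.Agent.L7h85.AC.betti (WRH Φ σ) ((Y163.sq (objRH hRX) n).prod (objRH hRU)) (2 * c) =
    Pool.Agent.L7h85.AC.betti W ((Y163.sq X n).prod U) (2 * c) := by
      rw [← h7]
      rfl
  rw [h7] at h8
  rw [numRank_up, h7] at h2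
  rw [h9] at h5 h6
  exact ⟨z, r, h8, h2, h3, h4, h5, h6⟩

lemma genTate_up (X : (subRH Φ σ).Obj) (s j : ℕ) :
    genTate (PhiRH Φ σ) X s j = genTate Φ (up X) s j :=
  congrArg (fun g : up X ⟶ up X =>
    Module.End.maxGenEigenspace (W.map g).toLinearMap ((card Φ (up X) s : W.K) ^ j) ⊓
      W.gr (up X) (2 * j)) (iter_up (X := X) (Φ.Fr (up X)) s).symm

lemma tateAt_up (X : (subRH Φ σ).Obj) (s j : ℕ) :
    tateAt (PhiRH Φ σ) X s j = tateAt Φ (up X) s j :=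
  congrArg (fun g : up X ⟶ up X =>
    eigIn (W.map g).toLinearMap ((card Φ (up X) s : W.K) ^ j) (W.gr (up X) (2 * j)))
      (iter_up (X := X) (Φ.Fr (up X)) s).symm

lemma semiAt_up (X : (subRH Φ σ).Obj) (s j : ℕ) :
    SemiAt (PhiRH Φ σ) X s j ↔ SemiAt Φ (up X) s j := by
  unfold SemiAt
  rw [genTate_up, tateAt_up]
  exact Iff.rfl

/-- **The law of the Jordan blocks.** -/
theorem jordan_law_X {X : 𝒱.Obj} (hRH : RiemannHyp Φ σ X) [hX : Nontrivial (W.H X)] :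
    ∃ t z r : ℕ → ℕ,
      (∀ n, t n = tateNum Φ (sq X n) ((n + 1) * X.dim)) ∧
      (∀ n, PoleOrderIs Φ σ (sq X n) ((n + 1) * X.dim) (z n)) ∧
      (∀ n, r n = numRank ops (sq X n) ((n + 1) * X.dim)) ∧
      (∀ n, 0 < r n ∧ r n ≤ t n ∧ t n ≤ z n) ∧
      (((∀ m s j, SemiAt Φ (pw X m) s j) ∧ ∀ n, t n = z n) ∨
      ((∃ s, 0 < s ∧ ¬ SemiAt Φ (X.prod X) s X.dim) ∧
        (∃ l : ℝ, 0 < l ∧ Tendsto (fun n : ℕ => √((n : ℝ) + 1) * t n / z n) atTop (𝓝 l)) ∧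
        ∃ c : ℝ, 0 < c ∧ ∀ n : ℕ, c * ((n : ℝ) + 1) ^ (3 / 2 : ℝ) * r n ≤ z n ∧
          c * ((n : ℝ) + 1) * r n ≤ t n)) := by
  have : Nontrivial ((WRH Φ σ).H (objRH hRH)) := hX
  obtain ⟨t, z, r, h1, h2, h3, h4, h5⟩ := Pool.Agent.L7h85.PW.jordan_law
    Pool.Agent.L7h35.PW.s_ENDP Pool.Agent.L7h89.PW.s_KERN Pool.Agent.L7h60.PW.s_BLKG
    hp.out.one_lt inferInstance (PhiRH Φ σ) σ (Pool.Agent.L7h73.PW.s_NSU (PhiRH Φ σ) σ)
    (rh_all Φ σ) (objRH hRH)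
  refine ⟨t, z, r, fun n => ?_, fun n => ?_, fun n => ?_, h4, h5.imp ?_ ?_⟩
  · have h9 : t n = tateNum Φ (up (sq (objRH hRH) n)) ((n + 1) * X.dim) := by
      rw [h1 n]
      have h10 : {c : W.H (up (sq (objRH hRH) n)) |
          IsTate (PhiRH Φ σ) (sq (objRH hRH) n) ((n + 1) * X.dim) c} =
          {c : W.H (up (sq (objRH hRH) n)) |
            IsTate Φ (up (sq (objRH hRH) n)) ((n + 1) * X.dim) c} :=
        Set.ext fun c => isTate_up Φ (sq (objRH hRH) n) _ c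
      exact congrArg (fun S : Set (W.H (up (sq (objRH hRH) n))) =>
        Module.finrank W.K (Submodule.span W.K S)) h10
    rw [sq_up] at h9
    exact h9
  · have h7 := (poleOrderIs_up Φ σ _ _ _).1 (h2 n)
    rw [sq_up] at h7
    exact h7
  · have h7 := h3 n
    rw [numRank_up, sq_up] at h7
    exact h7
  · rintro ⟨h6, h7⟩
    refine ⟨fun m s j => ?_, h7⟩
    have h8 := (semiAt_up _ s j).1 (h6 m s j)
    rw [pw_up] at h8
    exact h8
  · rintro ⟨⟨s, hs, h6⟩, h7⟩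
    exact ⟨⟨s, hs, fun h => h6 ((semiAt_up (X := (objRH hRH).prod (objRH hRH)) s _).2 h)⟩, h7⟩

end Pool.Agent.L7h85.SB
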