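import Pool.Agent.L7h94.RH.Prod

/-!
# Restriction of a Weil cohomology theory to the varieties which satisfy the Riemann hypothesis

Let `P` be a property of the varieties of the class `𝒱` which holds for products if it holds for the
factors. Then the varieties with the property `P` are again a class, `sub P hP`, and operations on cycles,
Weil cohomology theories and systems of Frobenius endomorphisms can be restricted to it. For the
Riemann hypothesis this allows to replace the hypothesis for all varieties in `𝒱` by the hypothesis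
for the varieties which occur in a theorem.
-/

set_option autoImplicit false

open CategoryTheory AlgebraicGeometry

universe u v

namespace Pool.Agent.L7h85.SB

open Pool.Agent.H914 hiding iter
open Pool.Agent.H914.VarClass Pool.Agent.H914.VarClass.Obj Pool.Agent.H914.WeilCohomology
open Pool.Agent.W534 Pool.Agent.Y163

variable {k : Type u} [Field k] {𝒱 : VarClass k}

/-- The subclass of the varieties with the property `P`. -/
def sub (P : 𝒱.Obj → Prop) (hP : ∀ X Y : 𝒱.Obj, P X → P Y → P (X.prod Y)) : VarClass k where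
  mem V := ∃ h : 𝒱.mem V, P ⟨V, h⟩
  prod_mem := fun hX hY => ⟨𝒱.prod_mem hX.1 hY.1, hP _ _ hX.2 hY.2⟩

variable {P : 𝒱.Obj → Prop} {hP : ∀ X Y : 𝒱.Obj, P X → P Y → P (X.prod Y)}

/-- The inclusion of the subclass. -/
def up (X : (sub P hP).Obj) : 𝒱.Obj := ⟨X.V, X.mem.1⟩

lemma up_mem (X : (sub P hP).Obj) : P (up X) := X.mem.2

/-- A variety with the property `P` as a member of the subclass. -/
def down (hP : ∀ X Y : 𝒱.Obj, P X → P Y → P (X.prod Y)) (X : 𝒱.Obj) (hX : P X) :
    (sub P hP).Obj := ⟨X.V, X.mem, hX⟩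

lemma up_down (X : 𝒱.Obj) (hX : P X) : up (down hP X hX) = X := rfl

/-- The restriction of the operations on cycles. -/
def subOps (ops : CycleOps 𝒱) : CycleOps (sub P hP) where
  mul := fun {X} z w => ops.mul (X := up X) z w
  pull := fun {X Y} f z => ops.pull (X := up X) (Y := up Y) f z
  push := fun {X Y} f z => ops.push (X := up X) (Y := up Y) f z
  mul_mem := fun {X} _ _ _ _ hz hw => ops.mul_mem (X := up X) hz hw
  pull_mem := fun {X Y} f _ _ hz => ops.pull_mem (X := up X) (Y := up Y) f hz
  push_mem := fun {X Y} f _ _ _ hz h => ops.push_mem (X := up X) (Y := up Y) f hz h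

variable {ops : CycleOps 𝒱}

/-- The restriction of a Weil cohomology theory: the data. -/
def subData (W : WeilCohomology.{u, v} ops) : WeilData.{u, v} (sub P hP) where
  K := W.K
  field := W.field
  charZero := W.charZero
  H := fun X => W.H (up X)
  ring := fun X => W.ring (up X)
  algebra := fun X => W.algebra (up X)
  gr := fun X => W.gr (up X)
  map := fun {X Y} f => W.map (X := up X) (Y := up Y) f
  tr := fun X => W.tr (up X)
  push := fun {X Y} f => W.push (X := up X) (Y := up Y) f
  cl := fun X => W.cl (up X)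

/-- The restriction of a Weil cohomology theory. -/
def subW (W : WeilCohomology.{u, v} ops) :
    WeilCohomology.{u, v} (subOps (P := P) (hP := hP) ops) where
  toWeilData := subData W
  isPoincareAlgebra := fun X => W.isPoincareAlgebra (up X)
  isFunctorial :=
    { map_id := fun X => W.isFunctorial.map_id (up X)
      map_comp := fun {X Y Z} f g =>
        W.isFunctorial.map_comp (X := up X) (Y := up Y) (Z := up Z) f g
      isPullPush := fun {X Y} f => W.isFunctorial.isPullPush (X := up X) (Y := up Y) f }
  isKunneth := fun X Y => W.isKunneth (up X) (up Y)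
  isCycleMap := fun X => W.isCycleMap (up X)
  isCompatible :=
    { cl_mul := fun {X} z w => W.isCompatible.cl_mul (X := up X) z w
      cl_pull := fun {X Y} f z => W.isCompatible.cl_pull (X := up X) (Y := up Y) f z
      cl_push := fun {X Y} f z => W.isCompatible.cl_push (X := up X) (Y := up Y) f z }

variable {W : WeilCohomology.{u, v} ops}

instance [h : IsAlgClosed W.K] : IsAlgClosed (subW (P := P) (hP := hP) W).K := h

/-- The iterates in the subclass. -/
lemma iter_up {X : (sub P hP).Obj} (f : X ⟶ X) (s : ℕ) :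
    (iter (X := up X) f s : up X ⟶ up X) = iter f s := by
  induction s with
  | zero => rfl
  | succ s ih =>
    have h1 : iter (X := up X) f (s + 1) = iter (X := up X) f s ≫ f := rfl
    have h2 : iter f (s + 1) = iter f s ≫ f := rfl
    rw [h1, h2, ih]
    rfl

variable {p : ℕ}

/-- The restriction of the Frobenius endomorphisms. -/
def subF (Φ : FrobSystem W p) : FrobSystem (subW (P := P) (hP := hP) W) p where
  Fr := fun X => Φ.Fr (up X)
  e := fun X => Φ.e (up X)
  p_pos := Φ.p_pos
  e_pos := fun X => Φ.e_pos (up X)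
  comm := by
    intro X Y f
    obtain ⟨a, b, ha, hab, h⟩ := Φ.comm (X := up X) (Y := up Y) f
    refine ⟨a, b, ha, hab, ?_⟩
    have h1 := iter_up (X := X) (Φ.Fr (up X)) a
    have h2 := iter_up (X := Y) (Φ.Fr (up Y)) b
    have h3 : (iter (X := up X) (Φ.Fr (up X)) a ≫ (f : up X ⟶ up Y) : up X ⟶ up Y) =
      f ≫ iter (X := up Y) (Φ.Fr (up Y)) b := h
    rw [h1, h2] at h3
    exact h3
  cyc := by
    intro X j z hz
    obtain ⟨s, hs, h⟩ := Φ.cyc (X := up X) hz
    refine ⟨s, hs, ?_⟩
    rw [iter_up (X := X) (Φ.Fr (up X)) s] at h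
    exact h
  deg := fun {X} _ hc => Φ.deg (X := up X) hc

variable (Φ : FrobSystem W p) (σ : W.K →+* ℂ)

lemma frobPoly_up (X : (sub P hP).Obj) (s i : ℕ) :
    frobPoly (subF Φ) σ X s i = frobPoly Φ σ (up X) s i :=
  congrArg (fun g : up X ⟶ up X => (charpolyOn (W.map g).toLinearMap (W.gr (up X) i)).map σ)
    (iter_up (X := X) (Φ.Fr (up X)) s).symm

lemma riemannHyp_up (X : (sub P hP).Obj) :
    RiemannHyp (subF Φ) σ X ↔ RiemannHyp Φ σ (up X) := by
  constructor
  · intro h s hs i μ hμ
    rw [← frobPoly_up] at hμ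
    exact h s hs i μ hμ
  · intro h s hs i μ hμ
    rw [frobPoly_up] at hμ
    exact h s hs i μ hμ

lemma zetaFn_up (X : (sub P hP).Obj) (s : ℕ) :
    zetaFn (subF Φ) σ X s = zetaFn Φ σ (up X) s := by
  funext z
  unfold zetaFn
  simp only [frobPoly_up]
  rfl

lemma numRank_up (X : (sub P hP).Obj) (j : ℕ) :
    numRank (subOps ops) X j = numRank ops (up X) j := rfl

lemma poleOrderIs_up (X : (sub P hP).Obj) (j r : ℕ) :
    PoleOrderIs (subF Φ) σ X j r ↔ PoleOrderIs Φ σ (up X) j r := by
  unfold PoleOrderIs
  simp only [zetaFn_up]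

lemma poleFormula_up (X : (sub P hP).Obj) (j : ℕ) :
    PoleFormula (subF Φ) σ X j ↔ PoleFormula Φ σ (up X) j := by
  unfold PoleFormula
  simp only [zetaFn_up]
  rfl

lemma pw_up (X : (sub P hP).Obj) (n : ℕ) : up (pw X n) = pw (up X) n := by
  induction n with
  | zero => rfl
  | succ n ih =>
    change (up X).prod (up (pw X n)) = (up X).prod (pw (up X) n)
    rw [ih]

lemma sq_up (X : (sub P hP).Obj) (n : ℕ) : up (sq X n) = sq (up X) n := by
  change (up (pw X n)).prod (up (pw X n)) = (pw (up X) n).prod (pw (up X) n)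
  rw [pw_up]

lemma isTate_up (X : (sub P hP).Obj) (j : ℕ) (c : W.H (up X)) :
    IsTate (subF Φ) X j c ↔ IsTate Φ (up X) j c := by
  have h : ∀ s, (subW W).map (iter ((subF Φ).Fr X) s) c = W.map (iter (Φ.Fr (up X)) s) c :=
    fun s => congrArg (fun g : up X ⟶ up X => W.map g c) (iter_up (X := X) (Φ.Fr (up X)) s).symm
  constructor
  · rintro ⟨h1, s, hs, h2⟩
    exact ⟨h1, s, hs, (h s).symm.trans h2⟩
  · rintro ⟨h1, s, hs, h2⟩
    exact ⟨h1, s, hs, (h s).trans h2⟩

end Pool.Agent.L7h85.SB
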